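import Pool.Agent.H6.TP.Targets2
import Pool.Agent.H28.NW.Targets

/-!
# Rows TRN, SZK, NEG, TPB on logarithmic windows

Copy of `Pool.Agent.H91.TP.TRN` (helper91) for sums over logarithmic windows.
-/

set_option autoImplicit false

open Finset Pool.Agent.H6.N4D

namespace Pool.Agent.H55.NW.TRN

open Pool.Agent.H28.NW
open Pool.Agent.H6.TP

open Pool.Agent.H93.EB (cr M phi ind)

theorem pf_TRN : W_TRN := by
  have h1 : ∀ (lam : ℕ → ℝ) (N n : ℕ) (θ : ℝ), ‖cr lam N n θ‖ = cor lam N n θ := by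
    intro lam N n θ
    unfold cr cor
    rw [one_div, inv_mul_eq_div]
  refine ⟨h1, ?_, ?_, ?_⟩
  · intro lam N n
    unfold M Mx
    simp only [h1]
  · intro x
    rfl
  · intro X E
    unfold wlg ind
    rw [Finset.sum_filter]
    apply sum_congr rfl
    intro n _
    by_cases h : E n
    · simp only [h, if_true]
    · simp only [h, if_false, zero_div]

theorem pf_SZK : W_SZK := by
  refine ⟨(8 : ℝ) ^ 25, ?_⟩
  intro X hX
  have hX0 : (0 : ℝ) < X.hi := X.hi_pos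
  have hT8 : (8 : ℝ) ^ 25 ≤ X.T := hX.trans X.L_le_T
  have hTdef : X.T = Real.log X.hi := rfl
  set L := X.T with hL
  have hL0 : 0 < L := lt_of_lt_of_le (by positivity) hT8
  have hL1 : 1 ≤ L := le_trans (by norm_num) hT8
  set A := L ^ (191 / 200 : ℝ) with hA
  have hB8 : (8 : ℝ) ≤ L ^ (9 / 200 : ℝ) := by
    have h1 : ((8 : ℝ) ^ 25) ^ (9 / 200 : ℝ) ≤ L ^ (9 / 200 : ℝ) :=
      Real.rpow_le_rpow (by positivity) hT8 (by norm_num)
    have h2 : (8 : ℝ) ≤ ((8 : ℝ) ^ 25) ^ (9 / 200 : ℝ) := by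
      rw [← Real.rpow_natCast, ← Real.rpow_mul (by norm_num)]
      calc (8 : ℝ) = (8 : ℝ) ^ (1 : ℝ) := (Real.rpow_one _).symm
        _ ≤ _ := Real.rpow_le_rpow_of_exponent_le (by norm_num) (by norm_num)
    exact h2.trans h1
  have hAB : A * L ^ (9 / 200 : ℝ) = L := by
    rw [hA, ← Real.rpow_add hL0]
    norm_num
  have hA8 : 8 ≤ A := by
    refine hB8.trans ?_
    rw [hA]
    exact Real.rpow_le_rpow_of_exponent_le hL1 (by norm_num)
  have hA2 : 2 * A ≤ L / 4 := by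
    nlinarith
  have p1 : ∀ H : ℕ, Real.log H ≤ 2 * A → (H : ℝ) ≤ (X.hi : ℝ) ^ (1 / 4 : ℝ) := by
    intro H hH
    rcases Nat.eq_zero_or_pos H with h | h
    · subst h
      push_cast
      positivity
    · have h0 : (0 : ℝ) < H := by exact_mod_cast h
      rw [← Real.exp_log h0, Real.rpow_def_of_pos hX0]
      apply Real.exp_le_exp.mpr
      rw [← hTdef]
      linarith
  have hl2 : Real.log 2 ≤ 1 := by
    have := Real.log_two_lt_d9
    linarith
  have hl2' : 0.69 ≤ Real.log 2 := by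
    have := Real.log_two_gt_d9
    linarith
  refine ⟨p1, ?_, ?_⟩
  · intro k hk
    apply p1
    push_cast
    rw [Real.log_pow]
    have hk0 : (0 : ℝ) ≤ k := Nat.cast_nonneg _
    nlinarith
  · refine ⟨⌈A / Real.log 2⌉₊, ?_, ?_, ?_⟩
    · have h1 := Nat.ceil_lt_add_one (a := A / Real.log 2) (by positivity)
      have h2 : A / Real.log 2 ≤ A / 0.69 :=
        div_le_div_of_nonneg_left (by linarith) (by norm_num) hl2'
      have h3 : A / 0.69 + 1 ≤ 2 * A := by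
        rw [← sub_nonneg]
        have h4 : 2 * A - (A / 0.69 + 1) = (38 / 69) * A - 1 := by
          ring
        rw [h4]
        linarith
      linarith
    · have h1 := Nat.le_ceil (A / Real.log 2)
      rw [div_le_iff₀ (by linarith)] at h1
      push_cast
      rw [← Real.rpow_natCast, Real.rpow_def_of_pos (by norm_num)]
      apply Real.exp_le_exp.mpr
      linarith
    · have h1 := Nat.le_ceil (A / Real.log 2)
      refine le_trans ?_ h1
      have h2 : L ^ (23 / 25 : ℝ) ≤ A := by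
        rw [hA]
        exact Real.rpow_le_rpow_of_exponent_le hL1 (by norm_num)
      refine h2.trans ?_
      rw [le_div_iff₀ (by linarith)]
      nlinarith

theorem le_self_of_quarter {X : ℕ} (hX : 1 ≤ X) {Y : ℝ} (hY : Y ≤ (X : ℝ) ^ (1 / 4 : ℝ)) :
    Y ≤ X := by
  have h1 : (1 : ℝ) ≤ X := by exact_mod_cast hX
  refine hY.trans ?_
  calc (X : ℝ) ^ (1 / 4 : ℝ) ≤ (X : ℝ) ^ (1 : ℝ) :=
        Real.rpow_le_rpow_of_exponent_le h1 (by norm_num)
    _ = X := Real.rpow_one _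

theorem pf_NEG (hNGN : W_NGN) (hGEN : W_GEN) (hUPM : T_UPM) (hTRN : W_TRN) (hSZK : W_SZK) :
    W_NEG := by
  classical
  intro ε hε
  obtain ⟨κ, s, c, X0, hκ, hs, hc, hA⟩ := hNGN ε hε
  obtain ⟨R, hR⟩ := hUPM s hs
  obtain ⟨η, X1, Y1, hη, hG⟩ := hGEN R κ hκ
  obtain ⟨N0, hN⟩ := hR η hη
  obtain ⟨Xs, hS⟩ := hSZK
  obtain ⟨t1, t2, t3, t4⟩ := hTRN
  refine ⟨c, max Y1 N0, max (max (max X1 Xs) X0) 1, hc, ?_⟩
  intro X k lam hX hlam hk hk2 hM
  have hX1 : 1 ≤ X.L := le_trans (le_max_right _ _) hX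
  have hXr : max (max X1 Xs) X0 ≤ X.L := (le_max_left _ _).trans hX
  have hXa : max X1 Xs ≤ X.L := (le_max_left _ _).trans hXr
  have hk3 : max Y1 N0 ≤ 2 ^ k := hk.trans (Nat.lt_two_pow_self).le
  have hHX : ((2 ^ k : ℕ) : ℝ) ≤ X.hi :=
    le_self_of_quarter (X.one_le.trans X.le) ((hS X ((le_max_right _ _).trans hXa)).2.1 k hk2)
  have hg := hG X (2 ^ k) lam ((le_max_left _ _).trans hXa) ((le_max_left _ _).trans hk3) hHX hlam
  have ha := lio_abs hlam
  have hlX : 0 < X.L := by linarith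
  have h := hA X (fun n => Mx lam (2 ^ k) n)
    (fun n => ∃ θ : ℝ, 3 / 5 ≤ cor lam (2 ^ k) n θ ∧ ¬ Gen R η θ) ((le_max_right _ _).trans hXr)
    (fun n => ⟨Mx_nonneg ha _ _, Mx_le_one ha _ _⟩)
    (fun n _ hE => by
      apply hN (2 ^ k) n lam ((le_max_right _ _).trans hk3) ha
      intro θ hθ
      by_contra hc
      exact hE ⟨θ, hθ, hc⟩) hg
    (by
      unfold wlg at hM
      simpa only [t2] using hM)
  unfold wt wlg
  rw [le_div_iff₀ hlX, t3]
  simpa only [t2, t3] using h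

theorem pf_TPB (hTOP : W_TOPP) (hTRN : W_TRN) (hSZK : W_SZK) :
    W_TOP := by
  classical
  intro δ Q hδ
  obtain ⟨η, hη, hT⟩ := hTOP δ Q hδ
  refine ⟨η, hη, ?_⟩
  intro e he
  obtain ⟨κ, X0, Y0, hκ, hA⟩ := hT e he
  obtain ⟨Xs, hS⟩ := hSZK
  obtain ⟨t1, t2, t3, t4⟩ := hTRN
  refine ⟨κ, Y0, max (max X0 Xs) 1, hκ, ?_⟩
  intro X k lam hX hlam hk hk2 hM
  have hX1 : 1 ≤ X.L := le_trans (le_max_right _ _) hX
  have hXr : max X0 Xs ≤ X.L := (le_max_left _ _).trans hX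
  have hk3 : Y0 ≤ 2 ^ k := hk.trans (Nat.lt_two_pow_self).le
  have hHX : ((2 ^ k : ℕ) : ℝ) ≤ X.hi :=
    le_self_of_quarter (X.one_le.trans X.le) ((hS X ((le_max_right _ _).trans hXr)).2.1 k hk2)
  have hlX : 0 < X.L := by linarith
  unfold wt wlg at hM
  rw [le_div_iff₀ hlX, t3] at hM
  have h := hA X (2 ^ k) lam ((le_max_left _ _).trans hXr) hk3 hHX hlam
    (by
      simpa only [t2, t3] using hM)
  unfold WStr
  rw [t4]
  convert h

end Pool.Agent.H55.NW.TRN
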